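import Pool.Agent.H1.EwI

namespace Pool.Agent.Results.MP_7689c7_co.Proof

open Pool.Agent.H1.Ew Finset

/-- minimal generator: nonzero element of `S` that is not a sum of two nonzero elements of `S` -/
def MinGen (S : AddSubmonoid ℕ) (a : ℕ) : Prop :=
  a ∈ S ∧ a ≠ 0 ∧ ¬ ∃ u ∈ S, ∃ v ∈ S, u ≠ 0 ∧ v ≠ 0 ∧ u + v = a

/-- effective weight -/
noncomputable def ew (S : AddSubmonoid ℕ) : ℕ :=
  {p : ℕ × ℕ | MinGen S p.1 ∧ p.2 ∉ S ∧ p.1 < p.2}.ncard

open Classical in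
theorem result (g : ℕ) (S : AddSubmonoid ℕ) (hfin : {y : ℕ | y ∉ S}.Finite)
    (hg : {y : ℕ | y ∉ S}.ncard = g) : ew S ≤ (g + 1) ^ 2 / 8 := by
  set G := hfin.toFinset with hG
  have hmem : ∀ y, y ∈ G ↔ y ∉ S := fun y => by simp [hG]
  have hne : ∃ x, 0 < x ∧ x ∈ S := by
    obtain ⟨N, hN⟩ := hfin.bddAbove
    refine ⟨N + 1, by omega, ?_⟩
    by_contra h
    have := hN (show N + 1 ∈ {y : ℕ | y ∉ S} from h)
    omega
  have H : NS G (Nat.find hne) := by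
    refine ⟨by rw [hmem]; simp, ?_, (Nat.find_spec hne).1, ?_, ?_⟩
    · intro x y _ _ hx hy
      rw [hmem, not_not] at hx hy ⊢
      exact add_mem hx hy
    · rw [hmem, not_not]; exact (Nat.find_spec hne).2
    · intro x hx hx'
      rw [hmem]
      exact fun h => Nat.find_min hne hx' ⟨hx, h⟩
  have hc : #G = g := by rw [← hg, hG, Set.ncard_eq_toFinset_card _ hfin]
  have hirr : ∀ x, MinGen S x ↔ Irr G x := by
    intro x
    unfold MinGen Irr
    simp only [hmem, not_not]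
    constructor
    · rintro ⟨h1, h2, h3⟩
      exact ⟨by omega, h1, fun u v a b c d e => h3 ⟨u, c, v, d, by omega, by omega, e⟩⟩
    · rintro ⟨h1, h2, h3⟩
      exact ⟨h2, by omega, fun ⟨u, hu, v, hv, a, b, e⟩ => h3 u v (by omega) (by omega) hu hv e⟩
  have hw : ew S = wt G := by
    unfold ew wt
    rw [← card_sigma]
    have : {p : ℕ × ℕ | MinGen S p.1 ∧ p.2 ∉ S ∧ p.1 < p.2} =
        (((G.sigma (fun y => (range y).filter (Irr G))).image
          (fun q : (_ : ℕ) × ℕ => (q.2, q.1)) : Finset (ℕ × ℕ)) : Set (ℕ × ℕ)) := by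
      ext ⟨x, y⟩
      simp only [Set.mem_ofPred_eq, hirr, ← hmem, coe_image, Set.mem_image, mem_coe, mem_sigma,
        mem_filter, mem_range, Prod.mk.injEq]
      constructor
      · rintro ⟨h1, h2, h3⟩
        exact ⟨⟨y, x⟩, ⟨h2, h3, h1⟩, rfl, rfl⟩
      · rintro ⟨⟨y', x'⟩, ⟨h2, h3, h1⟩, rfl, rfl⟩
        exact ⟨h1, h2, h3⟩
    rw [this, Set.ncard_coe_finset, card_image_of_injective]
    rintro ⟨a, b⟩ ⟨c, d⟩ h
    simp only [Prod.mk.injEq] at h
    obtain ⟨rfl, rfl⟩ := h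
    rfl
  rw [hw, ← hc]
  exact H.main_le

end Pool.Agent.Results.MP_7689c7_co.Proof
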